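import Pool.Agent.H123R3.Top

/-! # A solution in dimension three that is topologically, but not truly, one-dimensional -/

set_option autoImplicit false

open MeasureTheory
open scoped ContDiff Laplacian

namespace Pool.Agent.Results.MP_9aae89_an.HarmonicSheet

/-- For every smooth compactly supported `f ≥ 0` with positive integral there is a smooth
solution `u` of `Δ u = f(u)` in three-dimensional space which is the composition of a
one-dimensional solution `α x₁⁺ - β x₁⁻`, `α² - β² = 2 ∫ f`, of the free boundary problem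
with a homeomorphism, but which is not a function of one coordinate after any rigid motion. -/
theorem result (f : ℝ → ℝ) (hf : ContDiff ℝ ∞ f) (hs : HasCompactSupport f)
    (_h0 : ∀ t, 0 ≤ f t) (ha : 0 < ∫ t, f t) :
    ∃ u : EuclideanSpace ℝ (Fin 3) → ℝ,
      ContDiff ℝ ∞ u ∧
      (∀ x, (Δ u) x = f (u x)) ∧
      (∃ (α β : ℝ) (Φ : EuclideanSpace ℝ (Fin 3) ≃ₜ EuclideanSpace ℝ (Fin 3)),
        0 < α ∧ 0 < β ∧ α ^ 2 - β ^ 2 = 2 * ∫ t, f t ∧
        ∀ x, u x = α * max ((Φ x) 0) 0 - β * max (-((Φ x) 0)) 0) ∧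
      ¬ ∃ (g : EuclideanSpace ℝ (Fin 3) ≃ᵃⁱ[ℝ] EuclideanSpace ℝ (Fin 3)) (V : ℝ → ℝ),
        ∀ x, u x = V ((g x) 0) :=
  Pool.Agent.H123R3.main' f hf hs ha

end Pool.Agent.Results.MP_9aae89_an.HarmonicSheet
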